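import Mathlib
import Pool.Agent.Helper60.Gap.FixedRank
import Pool.Agent.UDT.All

set_option autoImplicit false

namespace Pool.Agent.Helper70.Gap

open Finset Filter Pool.Agent.Helper60.Gap

theorem ev_growth_pow {δ : ℝ} (hδ : 0 < δ) :
    ∀ᶠ x : ℝ in atTop, 42 * √x ≤ Real.exp (δ * x) := by
  have h := tendsto_rpow_mul_exp_neg_mul_atTop_nhds_zero (1 / 2) δ hδ
  have h2 := h.eventually (ge_mem_nhds (show (0 : ℝ) < 1 / 42 by norm_num))
  filter_upwards [h2] with x hx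
  rw [← Real.sqrt_eq_rpow, neg_mul, Real.exp_neg, ← div_eq_mul_inv,
    div_le_iff₀ (Real.exp_pos _)] at hx
  linarith

/-- `M_r(n)` and `M_1(n)` agree up to powers of `r`, for all `r ≤ n ^ δ`. -/
theorem fixed_rank_pow : ∃ δ : ℝ, 0 < δ ∧ ∃ n₀ : ℕ, ∀ n : ℕ, n₀ ≤ n → ∀ r : ℕ, 1 ≤ r →
    (r : ℝ) ≤ (n : ℝ) ^ δ →
    (M 1 n : ℝ) ≤ 2 * (r : ℝ) ^ 2 * M r n ∧ M r n ≤ Mstar r n ∧
    (Mstar r n : ℝ) ≤ 3 * (r : ℝ) ^ 4 * M 1 n := by
  obtain ⟨δ₀, hδ₀, N, hN⟩ := Pool.Agent.UDT.power_gap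
  set δ : ℝ := min (δ₀ / 3) 1 with hδdef
  have hδ : 0 < δ := lt_min (by positivity) one_pos
  have hδ1 : δ ≤ 1 := min_le_right _ _
  have hδ3 : 3 * δ ≤ δ₀ := by
    have := min_le_left (δ₀ / 3) 1
    linarith
  have hlog : Tendsto (fun n : ℕ => Real.log n) atTop atTop :=
    Real.tendsto_log_atTop.comp tendsto_natCast_atTop_atTop
  obtain ⟨n₂, hn₂⟩ := Filter.eventually_atTop.mp (hlog.eventually
    ((ev_growth_pow hδ).and (eventually_ge_atTop (4 : ℝ))))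
  refine ⟨δ, hδ, N + n₂ + 1, ?_⟩
  intro n hn r hr hrn
  obtain ⟨hg, hx4⟩ := hn₂ n (by omega)
  have hnpos : (0 : ℝ) < n := by exact_mod_cast (by omega : 0 < n)
  have hn1 : (1 : ℝ) ≤ n := by exact_mod_cast (by omega : 1 ≤ n)
  have hM1 := hN n 1 le_rfl (by omega)
  rw [Nat.cast_one, div_one] at hM1
  set x := Real.log n with hx
  have hx0 : 0 < x := by linarith
  have hpow : (n : ℝ) ^ δ = Real.exp (δ * x) := by
    rw [Real.rpow_def_of_pos hnpos, ← hx]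
    congr 1
    ring
  rw [hpow] at hrn
  set e := Real.exp (δ * x) with he
  have he3 : Real.exp (3 * δ * x) = e ^ 3 := by
    rw [he, ← Real.exp_nat_mul]
    congr 1
    push_cast
    ring
  have hM1 : (n : ℝ) * e ^ 3 ≤ M 1 n := by
    refine le_trans ?_ hM1
    rw [Real.rpow_add hnpos, Real.rpow_one, ← he3, Real.rpow_def_of_pos hnpos, ← hx]
    exact mul_le_mul_of_nonneg_left (Real.exp_le_exp.mpr (by nlinarith)) hnpos.le
  have hr' : (1 : ℝ) ≤ r := by exact_mod_cast hr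
  have he1 : 1 ≤ e := hr'.trans hrn
  -- the error term
  set lam : ℝ := 20 * n * √x with hlam
  have hsx : 1 ≤ √x := by rw [Real.one_le_sqrt]; linarith
  have hlam0 : 0 < lam := by positivity
  have hlam1 : lam + 1 ≤ 21 * (n * √x) := by
    have : 1 ≤ n * √x := by nlinarith
    rw [hlam]
    linarith
  have hkey : (r : ℝ) ^ 2 * (lam + 1) ≤ (M 1 n : ℝ) / 2 := by
    have h1 : (r : ℝ) ^ 2 ≤ e ^ 2 := by gcongr
    calc (r : ℝ) ^ 2 * (lam + 1) ≤ e ^ 2 * (21 * (n * √x)) := by gcongr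
      _ = e ^ 2 * n * (42 * √x) / 2 := by ring
      _ ≤ e ^ 2 * n * e / 2 := by gcongr
      _ = n * e ^ 3 / 2 := by ring
      _ ≤ (M 1 n : ℝ) / 2 := by gcongr
  have hen : e ≤ n := by
    have h1 : (n : ℝ) = Real.exp x := by rw [hx, Real.exp_log hnpos]
    rw [h1, he]
    apply Real.exp_le_exp.mpr
    nlinarith
  have hrn' : (r : ℝ) ≤ n := hrn.trans hen
  have hbig : 2 * (r : ℝ) * (n : ℝ) ^ 2 * Real.exp (-(lam ^ 2 / (24 * (n : ℝ) ^ 2))) < 1 := by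
    have h1 : lam ^ 2 / (24 * (n : ℝ) ^ 2) = 50 / 3 * x := by
      rw [hlam, mul_pow, mul_pow, Real.sq_sqrt hx0.le]
      field_simp
      ring
    have h2 : (n : ℝ) ^ 3 = Real.exp (3 * x) := by
      have e1 : (n : ℝ) = Real.exp x := by rw [hx, Real.exp_log hnpos]
      rw [e1, ← Real.exp_nat_mul]
      push_cast
      rfl
    rw [h1]
    calc 2 * (r : ℝ) * (n : ℝ) ^ 2 * Real.exp (-(50 / 3 * x))
        ≤ 2 * (n : ℝ) * (n : ℝ) ^ 2 * Real.exp (-(50 / 3 * x)) := by gcongr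
      _ = 2 * ((n : ℝ) ^ 3 * Real.exp (-(50 / 3 * x))) := by ring
      _ = 2 * Real.exp (3 * x + -(50 / 3 * x)) := by rw [h2, Real.exp_add]
      _ ≤ 2 * Real.exp (-1) := by
          gcongr
          linarith
      _ < 1 := by
          rw [Real.exp_neg]
          have := Real.exp_one_gt_d9
          rw [← div_eq_mul_inv, div_lt_one (Real.exp_pos 1)]
          linarith
  refine ⟨?_, M_le_Mstar hr n, ?_⟩
  · obtain ⟨A, hA, hM⟩ := exists_M 1 n
    have h1 := compare_down A (by omega) hr hlam0 (by rw [hA]; exact hbig)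
    rw [hA] at h1
    have h2 : (M 1 n : ℝ) = (fr A 1 : ℝ) - fr A 2 := by
      rw [hM, Nat.cast_sub (fr_anti A (by omega))]
    rw [← h2] at h1
    have h3 : (r : ℝ) ^ 2 * (M r n + lam + 1) = (r : ℝ) ^ 2 * M r n + (r : ℝ) ^ 2 * (lam + 1) := by
      ring
    rw [h3] at h1
    linarith
  · obtain ⟨A, hA, hM⟩ := exists_Mstar r n
    have h1 := compare_up A (by omega) hr hlam0 (by rw [hA]; exact hbig)
    rw [hA] at h1
    have h2 : (Mstar r n : ℝ) = (fr A 1 : ℝ) - fr A (r + 1) := by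
      rw [hM, Nat.cast_sub (fr_anti A (by omega))]
    rw [← h2] at h1
    have h3 : (r : ℝ) * lam + 1 ≤ (M 1 n : ℝ) / 2 := by
      refine le_trans ?_ hkey
      nlinarith [mul_nonneg (sub_nonneg.mpr hr') hlam0.le]
    calc (Mstar r n : ℝ) ≤ 2 * (r : ℝ) ^ 4 * (M 1 n + r * lam + 1) := h1
      _ = 2 * (r : ℝ) ^ 4 * (M 1 n + (r * lam + 1)) := by ring
      _ ≤ 2 * (r : ℝ) ^ 4 * (M 1 n + (M 1 n : ℝ) / 2) := by gcongr
      _ = 3 * (r : ℝ) ^ 4 * M 1 n := by ring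

end Pool.Agent.Helper70.Gap
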